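import Mathlib

/-!
# Half-trees, almost invariant sets and forbidden turns

Let `A` be a subset of a free group `F` which is (eventually) locally constant on the cones of the
Cayley tree, infinite and co-infinite.  Then there is a vertex `h` of the tree such that the cones
over all its outward neighbours are eventually contained in `A` or in its complement, and both
possibilities occur.  If moreover `A * w ⊆ A` for a cyclically reduced word `w`, then `w` cannot
contain the corresponding turn.
-/

set_option autoImplicit false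

namespace Pool.Agent.Blk39

open FreeGroup

variable {α : Type*}

/-- The inverse letter. -/
def bar (x : α × Bool) : α × Bool := (x.1, !x.2)

lemma bar_bar (x : α × Bool) : bar (bar x) = x := by
  unfold bar; simp

lemma red_iff (a b : α × Bool) : (a.1 = b.1 → a.2 = b.2) ↔ b ≠ bar a := by
  unfold bar
  constructor
  · rintro h rfl
    have := h rfl
    simp at this
  · intro h h1
    by_contra h2
    apply h
    refine Prod.ext h1.symm ?_
    cases ha : a.2 <;> cases hb : b.2 <;> simp_all

lemma isReduced_pair {a b : α × Bool} (h : b ≠ bar a) : IsReduced [a, b] := by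
  rw [isReduced_cons_cons]
  exact ⟨(red_iff a b).mpr h, IsReduced.singleton⟩

lemma pair_ne {a b : α × Bool} (h : IsReduced [a, b]) : b ≠ bar a := by
  rw [isReduced_cons_cons] at h
  exact (red_iff a b).mp h.1

lemma overlap_one {L₁ L₃ : List (α × Bool)} {x : α × Bool}
    (h1 : IsReduced (L₁ ++ [x])) (h2 : IsReduced ([x] ++ L₃)) :
    IsReduced (L₁ ++ [x] ++ L₃) :=
  IsReduced.append_overlap h1 h2 (by simp)

lemma IsRed.of_sub {L₁ L₂ : List (α × Bool)} (h : IsReduced L₂) (h' : L₁ <:+: L₂) :
    IsReduced L₁ := by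
  obtain ⟨s, t, rfl⟩ := h'
  exact List.IsChain.right_of_append (List.IsChain.left_of_append h)

lemma append_singleton_cases {L : List (α × Bool)} (hL : IsReduced L) (z : α × Bool) :
    IsReduced (L ++ [z]) ∨ ∃ M, L = M ++ [bar z] := by
  classical
  induction L using List.reverseRecOn with
  | nil => left; exact IsReduced.singleton
  | append_singleton M t _ =>
    by_cases h : z = bar t
    · right
      refine ⟨M, ?_⟩
      rw [h, bar_bar]
    · left
      exact overlap_one hL (isReduced_pair h)

lemma isReduced_replicate (n : ℕ) (y : α × Bool) : IsReduced (List.replicate n y) := by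
  apply List.isChain_replicate_of_rel
  intro _; rfl

variable [DecidableEq α]

lemma toWord_mk_of {L : List (α × Bool)} (h : IsReduced L) : (mk L).toWord = L := by
  rw [toWord_mk, h.reduce_eq]

lemma norm_mk_of {L : List (α × Bool)} (h : IsReduced L) : (mk L).norm = L.length := by
  rw [FreeGroup.norm, toWord_mk_of h]

lemma isReduced_invRev {L : List (α × Bool)} (h : IsReduced L) : IsReduced (invRev L) := by
  have h1 : ((mk L)⁻¹).toWord = invRev L := by
    rw [toWord_inv, toWord_mk_of h]
  rw [← h1]
  exact isReduced_toWord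

omit [DecidableEq α] in
lemma mk_cancel (M : List (α × Bool)) (z : α × Bool) : mk (M ++ [bar z]) * mk [z] = mk M := by
  have h1 : (mk [bar z] : FreeGroup α) = (mk [z])⁻¹ := by
    rw [inv_mk]
    simp [invRev, bar]
  rw [← mul_mk, h1, mul_assoc, inv_mul_cancel, mul_one]

/-- Multiplying by one letter does not change the first letter, except in an obvious case. -/
lemma head_mul_letter (g : FreeGroup α) (y z : α × Bool) (hg : g.toWord.head? = some y)
    (hz : z ≠ bar y ∨ 2 ≤ g.norm) : (g * mk [z]).toWord.head? = some y := by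
  rcases append_singleton_cases (isReduced_toWord (x := g)) z with h | ⟨M, hM⟩
  · rw [toWord_mul, toWord_mk, reduce_singleton, h.reduce_eq, List.head?_append, hg]
    rfl
  · have h1 : g * mk [z] = mk M := by
      rw [← mk_toWord (x := g), hM, mk_cancel]
    have hMred : IsReduced M := by
      have := isReduced_toWord (x := g)
      rw [hM] at this
      exact IsRed.of_sub this (List.infix_append' [] M [bar z])
    rw [h1, toWord_mk_of hMred]
    rw [hM] at hg
    cases M with
    | nil =>
      exfalso
      simp only [List.nil_append, List.head?_cons, Option.some.injEq] at hg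
      rcases hz with hz | hz
      · apply hz
        rw [← hg, bar_bar]
      · rw [FreeGroup.norm, hM] at hz
        simp at hz
    | cons m M' =>
      simpa using hg

omit [DecidableEq α] in
lemma mk_cons (z : α × Bool) (L : List (α × Bool)) : (mk (z :: L) : FreeGroup α) = mk [z] * mk L := by
  rw [mul_mk]; rfl

/-- A word without the letter `bar y` keeps the set of elements starting with `y`. -/
lemma head_mul_of_not_mem (y : α × Bool) (L : List (α × Bool)) (hL : bar y ∉ L) :
    ∀ g : FreeGroup α, g.toWord.head? = some y → (g * mk L).toWord.head? = some y := by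
  induction L with
  | nil => intro g hg; simpa [← one_eq_mk] using hg
  | cons z L ih =>
    intro g hg
    rw [mk_cons, ← mul_assoc]
    apply ih (fun h => hL (List.mem_cons_of_mem _ h))
    apply head_mul_letter g y z hg
    left
    rintro rfl
    exact hL List.mem_cons_self

/-- Multiplying by a shorter word keeps the first letter. -/
lemma head_mul_of_length_lt (y : α × Bool) (L : List (α × Bool)) :
    ∀ g : FreeGroup α, g.toWord.head? = some y → L.length < g.norm →
      (g * mk L).toWord.head? = some y := by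
  induction L with
  | nil => intro g hg _; simpa [← one_eq_mk] using hg
  | cons z L ih =>
    intro g hg hlt
    rw [List.length_cons] at hlt
    rw [mk_cons, ← mul_assoc]
    apply ih
    · apply head_mul_letter g y z hg
      right
      omega
    · have h1 : g.norm ≤ (g * mk [z]).norm + 1 := by
        have h2 : g = (g * mk [z]) * (mk [z])⁻¹ := by group
        have h3 := norm_mul_le (g * mk [z]) (mk [z])⁻¹
        rw [← h2, norm_inv_eq, norm_mk_of IsReduced.singleton] at h3
        simpa using h3
      omega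

/-- The half-space of an automorphism and a letter. -/
def HalfSpace (ψ : FreeGroup α ≃* FreeGroup α) (y : α × Bool) : Set (FreeGroup α) :=
  {g | (ψ g).toWord.head? = some y}

lemma finite_norm_le [Finite α] (n : ℕ) : {g : FreeGroup α | g.norm ≤ n}.Finite := by
  have h1 : {l : List (α × Bool) | l.length ≤ n}.Finite := List.finite_length_le (α × Bool) n
  exact Set.Finite.preimage (Set.injOn_of_injective toWord_injective) h1

lemma halfSpace_bound [Fintype α] (ψ : FreeGroup α ≃* FreeGroup α) (y : α × Bool) :
    ∃ N, ∀ g : FreeGroup α, ∀ z : α × Bool, N < g.norm → N < (g * mk [z]).norm →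
      (g ∈ HalfSpace ψ y ↔ g * mk [z] ∈ HalfSpace ψ y) := by
  classical
  set C : ℕ := Finset.univ.sup (fun z : α × Bool => (ψ (mk [z])).norm) with hC
  have hfin : {g : FreeGroup α | (ψ g).norm ≤ C}.Finite :=
    Set.Finite.preimage (Set.injOn_of_injective ψ.injective) (finite_norm_le C)
  obtain ⟨N, hN⟩ := (hfin.image FreeGroup.norm).bddAbove
  have hN' : ∀ g : FreeGroup α, (ψ g).norm ≤ C → g.norm ≤ N := fun g hg =>
    hN ⟨g, hg, rfl⟩
  have key : ∀ g : FreeGroup α, ∀ z : α × Bool, N < g.norm → g ∈ HalfSpace ψ y →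
      g * mk [z] ∈ HalfSpace ψ y := by
    intro g z hg hgA
    have h1 : C < (ψ g).norm := by
      by_contra h
      exact absurd (hN' g (not_lt.mp h)) (not_le.mpr hg)
    have h2 : (ψ (mk [z])).norm ≤ C := Finset.le_sup (f := fun z : α × Bool => (ψ (mk [z])).norm)
      (Finset.mem_univ z)
    show (ψ (g * mk [z])).toWord.head? = some y
    rw [_root_.map_mul]
    have h3 := head_mul_of_length_lt y (ψ (mk [z])).toWord (ψ g) hgA (lt_of_le_of_lt h2 h1)
    rwa [mk_toWord] at h3
  refine ⟨N, fun g z hg hgz => ⟨key g z hg, fun h => ?_⟩⟩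
  have h1 := key (g * mk [z]) (bar z) hgz h
  have h2 : g * mk [z] * mk [bar z] = g := by
    rw [mul_assoc]
    have := mk_cancel [] (bar z)
    rw [bar_bar, List.nil_append] at this
    rw [this, ← one_eq_mk, mul_one]
  rwa [h2] at h1

/-- `A` is locally constant outside of the ball of radius `N`. -/
def LocConst (A : Set (FreeGroup α)) (N : ℕ) : Prop :=
  ∀ h s : List (α × Bool), IsReduced (h ++ s) → N < h.length → (mk (h ++ s) ∈ A ↔ mk h ∈ A)

lemma locConst_halfSpace [Fintype α] (ψ : FreeGroup α ≃* FreeGroup α) (y : α × Bool) :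
    ∃ N, LocConst (HalfSpace ψ y) N := by
  obtain ⟨N, hN⟩ := halfSpace_bound ψ y
  refine ⟨N, ?_⟩
  intro h s
  induction s generalizing h with
  | nil => intro _ _; rw [List.append_nil]
  | cons z s ih =>
    intro hred hlen
    have e : h ++ z :: s = (h ++ [z]) ++ s := by simp
    rw [e] at hred ⊢
    have hr1 : IsReduced (h ++ [z]) := IsRed.of_sub hred (List.infix_append' [] _ _)
    have hr0 : IsReduced h := IsRed.of_sub hr1 (List.infix_append' [] _ _)
    rw [ih (h ++ [z]) hred (by simp; omega)]
    have h2 := hN (mk h) z (by rw [norm_mk_of hr0]; exact hlen) (by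
      rw [mul_mk, norm_mk_of hr1]; simp; omega)
    rw [h2, mul_mk]

/-- The cone over `h` is eventually contained in `A`. -/
def EvIn (A : Set (FreeGroup α)) (h : List (α × Bool)) : Prop :=
  ∃ M : ℕ, ∀ s : List (α × Bool), IsReduced (h ++ s) → M ≤ s.length → mk (h ++ s) ∈ A

/-- Existence of a vertex all of whose outward cones are eventually constant, of both kinds. -/
theorem exists_leaf [Fintype α] (A : Set (FreeGroup α)) (N : ℕ) (hA : LocConst A N)
    (h1 : ∀ M : ℕ, ∃ g ∈ A, M ≤ g.norm) (h0 : ∀ M : ℕ, ∃ g ∉ A, M ≤ g.norm) :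
    ∃ h : List (α × Bool), IsReduced h ∧
      (∀ z, IsReduced (h ++ [z]) → EvIn A (h ++ [z]) ∨ EvIn Aᶜ (h ++ [z])) ∧
      (∃ p, IsReduced (h ++ [p]) ∧ EvIn A (h ++ [p])) ∧
      (∃ q, IsReduced (h ++ [q]) ∧ EvIn Aᶜ (h ++ [q])) := by
  classical
  set S : Set (List (α × Bool)) := {h | IsReduced h ∧ ¬ EvIn A h ∧ ¬ EvIn Aᶜ h} with hS
  have hlen : ∀ h ∈ S, h.length ≤ N := by
    rintro h ⟨hr, ha, hb⟩
    by_contra hlt
    push Not at hlt
    by_cases hm : mk h ∈ A
    · exact ha ⟨0, fun s hs _ => (hA h s hs hlt).mpr hm⟩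
    · exact hb ⟨0, fun s hs _ hc => hm ((hA h s hs hlt).mp hc)⟩
  have hfin : S.Finite := (List.finite_length_le (α × Bool) N).subset hlen
  have hne : S.Nonempty := by
    refine ⟨[], IsReduced.nil, ?_, ?_⟩
    · rintro ⟨M, hM⟩
      obtain ⟨g, hg, hgM⟩ := h0 M
      apply hg
      have := hM g.toWord (by simpa using isReduced_toWord) hgM
      rwa [List.nil_append, mk_toWord] at this
    · rintro ⟨M, hM⟩
      obtain ⟨g, hg, hgM⟩ := h1 M
      have := hM g.toWord (by simpa using isReduced_toWord) hgM
      rw [List.nil_append, mk_toWord] at this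
      exact this hg
  obtain ⟨h, hhS, hmax⟩ := Set.exists_max_image S List.length hfin hne
  have hchild : ∀ z, IsReduced (h ++ [z]) → EvIn A (h ++ [z]) ∨ EvIn Aᶜ (h ++ [z]) := by
    intro z hz
    by_contra hcon
    push Not at hcon
    have := hmax (h ++ [z]) ⟨hz, hcon.1, hcon.2⟩
    simp at this
  have hall : ∀ B : Set (FreeGroup α), (∀ z, IsReduced (h ++ [z]) → EvIn B (h ++ [z])) →
      EvIn B h := by
    intro B hB
    have : ∀ z : α × Bool, ∃ M : ℕ, ∀ s, IsReduced (h ++ [z] ++ s) → M ≤ s.length →
        mk (h ++ [z] ++ s) ∈ B := by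
      intro z
      by_cases hz : IsReduced (h ++ [z])
      · exact hB z hz
      · exact ⟨0, fun s hs _ => absurd (IsRed.of_sub hs (List.infix_append' [] _ _)) hz⟩
    choose M hM using this
    refine ⟨Finset.univ.sup M + 1, fun s hs hl => ?_⟩
    cases s with
    | nil => simp at hl
    | cons z s =>
      have e : h ++ z :: s = (h ++ [z]) ++ s := by simp
      rw [e] at hs ⊢
      apply hM z s hs
      have : M z ≤ Finset.univ.sup M := Finset.le_sup (Finset.mem_univ z)
      rw [List.length_cons] at hl
      omega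
  refine ⟨h, hhS.1, hchild, ?_, ?_⟩
  · by_contra hcon
    push Not at hcon
    exact hhS.2.2 (hall Aᶜ fun z hz => (hchild z hz).resolve_left (hcon z hz))
  · by_contra hcon
    push Not at hcon
    exact hhS.2.1 (hall A fun z hz => (hchild z hz).resolve_right (hcon z hz))

omit [DecidableEq α] in
/-- A cone cannot be eventually in `A` and eventually in the complement. -/
lemma not_both (A : Set (FreeGroup α)) (h : List (α × Bool)) (p : α × Bool)
    (hr : IsReduced (h ++ [p])) (h1 : EvIn A (h ++ [p])) (h0 : EvIn Aᶜ (h ++ [p])) : False := by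
  obtain ⟨M, hM⟩ := h1
  obtain ⟨M', hM'⟩ := h0
  have hrr : IsReduced (h ++ [p] ++ List.replicate (M + M') p) := by
    apply overlap_one hr
    exact isReduced_replicate (M + M' + 1) p
  have a := hM _ hrr (by simp)
  have b := hM' _ hrr (by simp)
  exact b a

/-- The forbidden turn. -/
theorem turn_forbidden (A : Set (FreeGroup α)) (w : List (α × Bool)) (hw : IsCyclicallyReduced w)
    (hA : ∀ g ∈ A, g * mk w ∈ A) (h : List (α × Bool)) (p q : α × Bool)
    (hp : IsReduced (h ++ [p])) (hq : IsReduced (h ++ [q]))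
    (h1 : EvIn A (h ++ [p])) (h0 : EvIn Aᶜ (h ++ [q])) : ¬ ([bar p, q] <:+: w) := by
  rintro ⟨a, b, hab⟩
  have hw1 : 1 ≤ w.length := by rw [← hab]; simp; omega
  set R : ℕ → List (α × Bool) := fun n => (List.replicate n w).flatten with hR
  have hRred : ∀ n, IsReduced (R n) := fun n => (hw.flatten_replicate n).isReduced
  have hRlen : ∀ n, n ≤ (R n).length := by
    intro n
    simp only [hR, List.length_flatten, List.map_replicate, List.sum_replicate, smul_eq_mul]
    exact Nat.le_mul_of_pos_right n hw1
  have hRpow : ∀ n, (mk (R n) : FreeGroup α) = mk w ^ n := by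
    intro n
    induction n with
    | zero => simp [hR, ← one_eq_mk]
    | succ n ih =>
      rw [pow_succ', ← ih, mul_mk]
      simp [hR, List.replicate_succ]
  have hRs : ∀ n, R (n + 1) = w ++ R n := by
    intro n; simp [hR, List.replicate_succ]
  have hRs' : ∀ n, R (n + 1) = R n ++ w := by
    intro n; simp [hR, List.replicate_succ']
  set g0 : FreeGroup α := mk h * (mk (a ++ [bar p]))⁻¹ with hg0
  -- forward
  have hfwd : ∀ n, g0 * mk w ^ (n + 1) = mk (h ++ [q] ++ (b ++ R n)) := by
    intro n
    rw [pow_succ', ← hRpow n]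
    have e : mk w = mk (a ++ [bar p]) * (mk ([q] ++ b) : FreeGroup α) := by
      rw [mul_mk, ← hab]; simp
    rw [e, hg0]
    have : mk h * (mk (a ++ [bar p]))⁻¹ * (mk (a ++ [bar p]) * mk ([q] ++ b) * mk (R n)) =
      mk h * mk ([q] ++ b) * mk (R n) := by group
    rw [this, mul_mk, mul_mk]
    simp
  have hfred : ∀ n, IsReduced (h ++ [q] ++ (b ++ R n)) := by
    intro n
    apply overlap_one hq
    apply IsRed.of_sub (hRred (n + 1))
    refine ⟨a ++ [bar p], [], ?_⟩
    rw [hRs, ← hab]
    simp
  -- backward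
  have hbwd : ∀ n, g0 * (mk w ^ n)⁻¹ = mk (h ++ [p] ++ invRev (R n ++ a)) := by
    intro n
    rw [← hRpow n, hg0, mul_assoc, ← mul_inv_rev, mul_mk, inv_mk, mul_mk]
    congr 1
    simp [invRev, bar]
  have hbred : ∀ n, IsReduced (h ++ [p] ++ invRev (R n ++ a)) := by
    intro n
    apply overlap_one hp
    have e : [p] ++ invRev (R n ++ a) = invRev (R n ++ a ++ [bar p]) := by
      simp [invRev, bar]
    rw [e]
    apply isReduced_invRev
    apply IsRed.of_sub (hRred (n + 1))
    refine ⟨[], [q] ++ b, ?_⟩
    rw [hRs', ← hab]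
    simp
  obtain ⟨M, hM⟩ := h1
  obtain ⟨M', hM'⟩ := h0
  have hin : g0 * (mk w ^ M)⁻¹ ∈ A := by
    rw [hbwd]
    apply hM _ (hbred M)
    rw [invRev_length, List.length_append]
    have := hRlen M
    omega
  have hstay : ∀ k : ℕ, g0 * (mk w ^ M)⁻¹ * mk w ^ k ∈ A := by
    intro k
    induction k with
    | zero => simpa using hin
    | succ k ih =>
      rw [pow_succ, ← mul_assoc]
      exact hA _ ih
  have hout : g0 * mk w ^ (M' + 1) ∉ A := by
    rw [hfwd]
    apply hM' _ (hfred M')
    rw [List.length_append]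
    have := hRlen M'
    omega
  apply hout
  have := hstay (M + (M' + 1))
  rw [pow_add] at this
  have e : g0 * (mk w ^ M)⁻¹ * (mk w ^ M * mk w ^ (M' + 1)) = g0 * mk w ^ (M' + 1) := by group
  rwa [e] at this

lemma halfSpace_infinite [Fintype α] (ψ : FreeGroup α ≃* FreeGroup α) (y : α × Bool) :
    ∀ M : ℕ, ∃ g ∈ HalfSpace ψ y, M ≤ g.norm := by
  intro M
  by_contra hcon
  push Not at hcon
  have hinj : Function.Injective (fun n : ℕ => ψ.symm (mk (List.replicate (n + 1) y))) := by
    intro m n hmn
    have h1 := ψ.symm.injective hmn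
    have h2 := congrArg toWord h1
    rw [toWord_mk_of (isReduced_replicate _ _), toWord_mk_of (isReduced_replicate _ _)] at h2
    have h3 := congrArg List.length h2
    simpa using h3
  have hfin : (Set.range (fun n : ℕ => ψ.symm (mk (List.replicate (n + 1) y)))).Finite := by
    apply (finite_norm_le (α := α) M).subset
    rintro _ ⟨n, rfl⟩
    refine le_of_lt (hcon _ ?_)
    show (ψ (ψ.symm _)).toWord.head? = some y
    rw [MulEquiv.apply_symm_apply, toWord_mk_of (isReduced_replicate _ _)]
    simp [List.replicate_succ]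
  exact Set.infinite_range_of_injective hinj hfin

lemma halfSpace_coinfinite [Fintype α] (ψ : FreeGroup α ≃* FreeGroup α) (y : α × Bool) :
    ∀ M : ℕ, ∃ g ∉ HalfSpace ψ y, M ≤ g.norm := by
  intro M
  obtain ⟨g, hg, hM⟩ := halfSpace_infinite ψ (bar y) M
  refine ⟨g, ?_, hM⟩
  intro h
  have h1 : (ψ g).toWord.head? = some y := h
  have h2 : (ψ g).toWord.head? = some (bar y) := hg
  rw [h1] at h2
  have h3 := Option.some.inj h2
  have h4 := congrArg Prod.snd h3
  simp [bar] at h4

/-- For every automorphism `φ` and every letter `y` there is a vertex of the Cayley tree all of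
whose outward cones are eventually on one side of the half-space of `φ` and `y`; the words `w`
which are images of words without `bar y` avoid all the corresponding turns. -/
theorem exists_turns [Fintype α] (ψ : FreeGroup α ≃* FreeGroup α) (y : α × Bool) :
    ∃ (h : List (α × Bool)) (P Q : Set (α × Bool)), IsReduced h ∧ P.Nonempty ∧ Q.Nonempty ∧
      (∀ z, z ∈ P → z ∉ Q) ∧
      (∀ z, IsReduced (h ++ [z]) ↔ z ∈ P ∪ Q) ∧
      ∀ w : FreeGroup α, IsCyclicallyReduced w.toWord → bar y ∉ (ψ w).toWord →
        ∀ p ∈ P, ∀ q ∈ Q, ¬ ([bar p, q] <:+: w.toWord) := by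
  obtain ⟨N, hN⟩ := locConst_halfSpace ψ y
  obtain ⟨h, hred, hall, ⟨p, hp1, hp2⟩, ⟨q, hq1, hq2⟩⟩ :=
    exists_leaf (HalfSpace ψ y) N hN (halfSpace_infinite ψ y) (halfSpace_coinfinite ψ y)
  refine ⟨h, {z | IsReduced (h ++ [z]) ∧ EvIn (HalfSpace ψ y) (h ++ [z])},
    {z | IsReduced (h ++ [z]) ∧ EvIn (HalfSpace ψ y)ᶜ (h ++ [z])}, hred, ⟨p, hp1, hp2⟩,
    ⟨q, hq1, hq2⟩, ?_, ?_, ?_⟩
  · rintro z ⟨hz, hz1⟩ ⟨_, hz2⟩
    exact not_both _ _ _ hz hz1 hz2
  · intro z
    constructor
    · intro hz
      rcases hall z hz with h1 | h1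
      · exact Or.inl ⟨hz, h1⟩
      · exact Or.inr ⟨hz, h1⟩
    · rintro (h1 | h1)
      · exact h1.1
      · exact h1.1
  · rintro w hw hwy p ⟨hp1, hp2⟩ q ⟨hq1, hq2⟩
    refine turn_forbidden (HalfSpace ψ y) w.toWord hw ?_ h p q hp1 hq1 hp2 hq2
    intro g hg
    show (ψ (g * mk w.toWord)).toWord.head? = some y
    rw [_root_.map_mul, mk_toWord]
    have := head_mul_of_not_mem y (ψ w).toWord hwy (ψ g) hg
    rwa [mk_toWord] at this

end Pool.Agent.Blk39
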